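import Pool.Agent.Mg.Ff0a921p.Gb961f7

/-! Second largest character ratios of the symmetric groups, for every degree `d ≥ 10`. -/

namespace Pool.Agent.Results.MP_f0a921_al.SecondRatio

open Pool.Agent.MP_f0a921_al

variable {d : ℕ} {V : Type} [AddCommGroup V] [Module ℂ V]

/-- `m i σ` is the number of parts equal to `i` of the cycle type of `σ`, a partition of `d`
(fixed points are the parts equal to `1`). -/
def m (i : ℕ) (σ : Equiv.Perm (Fin d)) : ℕ := σ.partition.parts.count i

/-- the absolute character ratio `|χ(σ)| / χ(1)` -/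
noncomputable def ratio (ρ : Representation ℂ (Equiv.Perm (Fin d)) V) (σ : Equiv.Perm (Fin d)) :
    ℝ := ‖ρ.character σ‖ / Module.finrank ℂ V

/-- the character of `ρ` is `ψ` or the product of `ψ` with the sign character -/
def IsOrConj (ρ : Representation ℂ (Equiv.Perm (Fin d)) V) (ψ : Equiv.Perm (Fin d) → ℂ) : Prop :=
  ρ.character = ψ ∨ ρ.character = fun g => ((Equiv.Perm.sign g : ℤ) : ℂ) * ψ g

/-- the character of the partition `(d-1,1)` -/
def chiA (g : Equiv.Perm (Fin d)) : ℂ := m 1 g - 1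

/-- the character of the partition `(d-2,1,1)` -/
noncomputable def chiB (g : Equiv.Perm (Fin d)) : ℂ := (m 1 g - 1) * (m 1 g - 2) / 2 - m 2 g

/-- the character of the partition `(d-2,2)` -/
noncomputable def chiC (g : Equiv.Perm (Fin d)) : ℂ := m 1 g * (m 1 g - 3) / 2 + m 2 g

theorem of_is {ρ : Representation ℂ (Equiv.Perm (Fin d)) V} {X : Finset ℕ}
    (h : ∀ g, ρ.character g = (chi g.partition.parts X : ℤ)) {v : List ℤ} (hv : Is v d X)
    {ψ : Equiv.Perm (Fin d) → ℂ} (hψ : ∀ g, ψ g = (PV v g.partition.parts : ℤ)) :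
    IsOrConj ρ ψ := by
  rcases hv with hv | hv
  · exact Or.inl (funext fun g => by
      rw [h, hψ, hv _ (fun _ hx => g.partition.parts_pos hx) (parts_sum g)])
  · exact Or.inr (funext fun g => by
      rw [h, hψ, hv _ (fun _ hx => g.partition.parts_pos hx) (parts_sum g), sm_parts, Int.cast_mul])

theorem ratio_eq [FiniteDimensional ℂ V] {ρ : Representation ℂ (Equiv.Perm (Fin d)) V}
    {ψ : Equiv.Perm (Fin d) → ℂ} (h : IsOrConj ρ ψ) (σ : Equiv.Perm (Fin d)) {x y : ℝ}
    (hx : ψ σ = x) (hy : ψ 1 = y) : ratio ρ σ = |x| / y := by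
  have h1 : ρ.character 1 = ψ 1 := by
    rcases h with h | h
    · rw [h]
    · rw [h]; simp
  have h2 : ‖ρ.character σ‖ = ‖ψ σ‖ := by
    rcases h with h | h
    · rw [h]
    · rw [h]; rcases Int.units_eq_one_or (Equiv.Perm.sign σ) with e | e <;> simp [e]
  rw [Representation.char_one, hy] at h1
  have h3 : (Module.finrank ℂ V : ℝ) = y := by exact_mod_cast h1
  rw [ratio, h2, h3, hx, Complex.norm_real, Real.norm_eq_abs]

theorem conclude {r B : ℝ} {P Q : Prop} (h1 : Q ∨ r < B) (h2 : Q → P) (h3 : P → r = B) :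
    r ≤ B ∧ (r = B ↔ P) := by
  rcases h1 with h | h
  · exact ⟨(h3 (h2 h)).le, fun _ => h2 h, h3⟩
  · exact ⟨h.le, fun e => absurd e h.ne, h3⟩

theorem result (d : ℕ) (hd : 10 ≤ d) (V : Type) [AddCommGroup V] [Module ℂ V]
    [FiniteDimensional ℂ V] (ρ : Representation ℂ (Equiv.Perm (Fin d)) V) [ρ.IsIrreducible]
    (hρ : ¬ IsOrConj ρ fun _ => 1) (σ : Equiv.Perm (Fin d)) (hσ : σ ≠ 1) :
    (m 1 σ ≠ 1 → (∀ k, σ.partition.parts ≠ Multiset.replicate k 2) →
      (∀ k, σ.partition.parts ≠ Multiset.replicate k 2 + {1, 1}) →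
      ratio ρ σ ≤ |(m 1 σ : ℝ) - 1| / (d - 1) ∧
        (ratio ρ σ = |(m 1 σ : ℝ) - 1| / (d - 1) ↔ IsOrConj ρ chiA)) ∧
    (m 1 σ = 1 → 1 ≤ m 2 σ → (∀ k, σ.partition.parts ≠ Multiset.replicate k 3 + {2, 1}) →
      ratio ρ σ ≤ 2 * (m 2 σ : ℝ) / ((d - 1) * (d - 2)) ∧
        (ratio ρ σ = 2 * (m 2 σ : ℝ) / ((d - 1) * (d - 2)) ↔ IsOrConj ρ chiB)) ∧
    (m 1 σ = 1 → m 2 σ = 0 → (∀ k, σ.partition.parts ≠ Multiset.replicate k 3 + {1}) →
      ratio ρ σ ≤ 2 / (d * (d - 3)) ∧
        (ratio ρ σ = 2 / (d * (d - 3)) ↔ IsOrConj ρ chiC)) := by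
  obtain ⟨X, hw, hf, hχ⟩ := irr_bead ρ
  have h0 : ¬ Is [1, 0, 0, 0, 0, 0, 0] d X := fun h => hρ (of_is hχ h fun g => by simp [PV])
  have hμ : ∀ r ∈ σ.partition.parts, 0 < r := fun _ hx => σ.partition.parts_pos hx
  have hs := parts_sum σ
  obtain ⟨R, c1, c2, c3⟩ := counts hμ
  rw [hs] at c1
  have p : (0 : ℝ) < dm d X := by exact_mod_cast dm_pos hw
  have q : (10 : ℝ) ≤ d := by exact_mod_cast hd
  have hr : ratio ρ σ = |chi σ.partition.parts X| / dm d X := by
    rw [ratio, hχ, ← hf, Complex.norm_intCast]; simp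
  have m1 : m 1 (1 : Equiv.Perm (Fin d)) = d := by simp [m, parts_one]
  have m2 : m 2 (1 : Equiv.Perm (Fin d)) = 0 := by simp [m, parts_one, Multiset.count_replicate]
  have c2' : ∀ n : ℕ, ((n.choose 2 : ℕ) : ℂ) = n * (n - 1) / 2 := fun n => Nat.cast_choose_two ℂ n
  refine ⟨fun a1 a2 a3 => ?_, fun a1 a2 a3 => ?_, fun a1 a2 a3 => ?_⟩
  · refine conclude ((main_i hd hw h0 hμ hs a1 (count_one_ne hσ) ?_ ?_).imp_right fun h => ?_)
      (fun h => of_is hχ h fun g => by simp [PV, chiA, m]; ring) fun h => ?_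
    · intro e
      have := c3 (by omega)
      rw [show σ.partition.parts.count 1 = 0 by omega, show σ.partition.parts.count 3 = 0 by omega]
        at this
      exact a2 _ (by simpa using this)
    · intro e
      have := c3 (by omega)
      rw [e.1, show σ.partition.parts.count 3 = 0 by omega] at this
      exact a3 _ (this.trans (by rw [Multiset.replicate_zero, add_zero, add_comm]; rfl))
    · rw [hr, div_lt_div_iff₀ p (by linarith)]
      exact_mod_cast h
    · exact ratio_eq h σ (by simp [chiA]) (by simp [chiA, m1])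
  · refine conclude ((main_ii hd hw h0 hμ hs a1 a2 ?_).imp_right fun h => ?_)
      (fun h => of_is hχ h fun g => by simp [PV, chiB, m, c2']; ring) fun h => ?_
    · intro e
      unfold m at a1
      have := c3 (by omega)
      rw [a1, e.1] at this
      exact a3 _ (this.trans (by rw [add_comm]; congr 1; decide))
    · rw [hr, div_lt_div_iff₀ p (by nlinarith)]
      exact_mod_cast h
    · rw [ratio_eq h σ (x := -(m 2 σ : ℝ)) (y := (d - 1) * (d - 2) / 2) (by simp [chiB, a1])
        (by simp [chiB, m1, m2]), abs_neg, Nat.abs_cast]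
      have : ((d : ℝ) - 1) * (d - 2) ≠ 0 := by nlinarith
      field_simp
  · refine conclude ((main_iii hd hw h0 hμ hs a1 a2 ?_).imp_right fun h => ?_)
      (fun h => of_is hχ h fun g => by simp [PV, chiC, m, c2']; ring) fun h => ?_
    · intro e
      unfold m at a1 a2
      have := c3 (by omega)
      rw [a1, a2] at this
      exact a3 _ (this.trans (by rw [Multiset.replicate_zero, add_zero, add_comm]; rfl))
    · rw [hr, div_lt_div_iff₀ p (by nlinarith)]
      exact_mod_cast h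
    · rw [ratio_eq h σ (x := -1) (y := d * (d - 3) / 2) (by simp [chiC, a1, a2]; norm_num)
        (by simp [chiC, m1, m2]), abs_neg, abs_one]
      have : (d : ℝ) * (d - 3) ≠ 0 := by nlinarith
      field_simp

end Pool.Agent.Results.MP_f0a921_al.SecondRatio
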